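import Mathlib

set_option autoImplicit false

open MeasureTheory Filter Topology ProbabilityTheory

namespace Pool.Agent.Results.MP_31ab2b_pr.NeverHomogenizes

/-- The `2d` unit arrows: `(i, true)` stands for `e_i` and `(i, false)` for `-e_i`. -/
abbrev Arrow (d : ℕ) := Fin d × Bool

/-- The lattice vector of an arrow. -/
def vec {d : ℕ} (a : Arrow d) : Fin d → ℤ :=
  fun j => if j = a.1 then (if a.2 then 1 else -1) else 0

/-- An environment: one arrow at each site of `ℤ^d`. -/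
abbrev Env (d : ℕ) := (Fin d → ℤ) → Arrow d

/-- The law `μ` of the environment: independent uniform arrows. -/
noncomputable def envLaw (d : ℕ) [NeZero d] : Measure (Env d) :=
  Measure.infinitePi fun _ : Fin d → ℤ => (PMF.uniformOfFintype (Arrow d)).toMeasure

open Classical in
/-- The transition probability `p(x, z, ω)`. -/
noncomputable def trans {d : ℕ} (ε : ℝ) (ω : Env d) (x z : Fin d → ℤ) : ℝ :=
  if x - z = vec (ω x) then 1 - (2 * (d : ℝ) - 1) * ε
  else if ∃ a : Arrow d, x - z = vec a then ε else 0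

open Classical in
/-- `p_ω(n, x)`: the probability that the chain started at `0` is at `x` at time `n`. -/
noncomputable def pn {d : ℕ} (ε : ℝ) (ω : Env d) : ℕ → (Fin d → ℤ) → ℝ
  | 0 => fun x => if x = 0 then 1 else 0
  | n + 1 => fun z => ∑' x : Fin d → ℤ, pn ε ω n x * trans ε ω x z

/-- The averaged kernel `m₁(n, x)`. -/
noncomputable def m1 (d : ℕ) [NeZero d] (ε : ℝ) (n : ℕ) (x : Fin d → ℤ) : ℝ :=
  ∫ ω, pn ε ω n x ∂(envLaw d)

/-- Condition (i): under the averaged law, `X_n / √n` converges in law to a centred Gaussian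
with covariance `σ² I_d`, for some `σ² > 0`. -/
def CLT (d : ℕ) [NeZero d] (ε : ℝ) : Prop :=
  ∃ v : NNReal, 0 < v ∧ ∀ f : BoundedContinuousFunction (Fin d → ℝ) ℝ,
    Tendsto (fun n : ℕ => ∑' x : Fin d → ℤ, m1 d ε n x * f fun i => (x i : ℝ) / √(n : ℝ)) atTop
      (𝓝 (∫ y, f y ∂(Measure.pi fun _ : Fin d => gaussianReal 0 v)))

/-- Condition (ii): for all `C, δ > 0`, the supremum over `|x| ≤ C √n` with `m₁(n, x) > 0` of
`μ(|p_ω(n, x) / m₁(n, x) - 1| > δ)` tends to `0`. -/
def LocalRatio (d : ℕ) [NeZero d] (ε : ℝ) : Prop :=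
  ∀ C : ℝ, 0 < C → ∀ δ : ℝ, 0 < δ →
    Tendsto (fun n : ℕ => ⨆ x ∈ {x : Fin d → ℤ | √(∑ i, (x i : ℝ) ^ 2) ≤ C * √(n : ℝ) ∧
      0 < m1 d ε n x}, envLaw d {ω | δ < |pn ε ω n x / m1 d ε n x - 1|}) atTop (𝓝 0)

/-- The model homogenizes: (i) and (ii) hold. -/
def Homogenizes (d : ℕ) [NeZero d] (ε : ℝ) : Prop := CLT d ε ∧ LocalRatio d ε

section Proof

variable {d : ℕ}

lemma vec_inj : Function.Injective (vec : Arrow d → Fin d → ℤ) := by
  rintro ⟨i, b⟩ ⟨j, c⟩ h
  have h1 := congrFun h i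
  simp only [vec, if_true] at h1
  have hij : i = j := by
    by_contra hne
    rw [if_neg hne] at h1
    cases b <;> simp at h1
  subst hij
  simp only [if_true] at h1
  cases b <;> cases c <;> simp_all

lemma trans_eq (ε : ℝ) (ω : Env d) (z : Fin d → ℤ) (a : Arrow d) :
    trans ε ω (z + vec a) z = if ω (z + vec a) = a then 1 - (2 * (d : ℝ) - 1) * ε else ε := by
  unfold trans
  have h : z + vec a - z = vec a := by abel
  rw [h]
  by_cases h1 : ω (z + vec a) = a
  · rw [if_pos h1, if_pos (by rw [h1])]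
  · rw [if_neg h1, if_neg (fun h2 => h1 (vec_inj h2).symm), if_pos ⟨a, rfl⟩]

lemma pn_succ (ε : ℝ) (ω : Env d) (n : ℕ) (z : Fin d → ℤ) :
    pn ε ω (n + 1) z = ∑ a : Arrow d, pn ε ω n (z + vec a) *
      (if ω (z + vec a) = a then 1 - (2 * (d : ℝ) - 1) * ε else ε) := by
  classical
  have h0 : pn ε ω (n + 1) z = ∑' x : Fin d → ℤ, pn ε ω n x * trans ε ω x z := rfl
  rw [h0, tsum_eq_sum (s := Finset.univ.image fun a : Arrow d => z + vec a)]
  · rw [Finset.sum_image]
    · simp_rw [trans_eq]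
    · intro a _ b _ hab
      exact vec_inj (add_left_cancel hab)
  · intro x hx
    have hx' : ¬ ∃ a : Arrow d, x - z = vec a := by
      rintro ⟨a, ha⟩
      apply hx
      rw [Finset.mem_image]
      exact ⟨a, Finset.mem_univ _, by rw [← ha]; abel⟩
    have : trans ε ω x z = 0 := by
      unfold trans
      rw [if_neg (fun h => hx' ⟨_, h⟩), if_neg hx']
    rw [this, mul_zero]

lemma exists_neg (a : Arrow d) : ∃ b : Arrow d, vec a + vec b = 0 ∧ b ≠ a := by
  refine ⟨(a.1, !a.2), ?_, ?_⟩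
  · funext j
    obtain ⟨i, c⟩ := a
    simp only [vec, Pi.add_apply, Pi.zero_apply]
    by_cases h : j = i <;> cases c <;> simp [h]
  · intro h
    have := congrArg Prod.snd h
    simp at this

variable {ε : ℝ} (hε : 0 < ε) (hε2 : ε < 1 / (2 * (d : ℝ)))

include hε hε2 in
lemma d_pos : (1 : ℝ) ≤ d := by
  have h : d ≠ 0 := by
    rintro rfl
    simp at hε2
    linarith
  exact_mod_cast Nat.one_le_iff_ne_zero.2 h

include hε hε2 in
lemma eps_lt : 2 * (d : ℝ) * ε < 1 := by
  have h := d_pos hε hε2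
  rw [lt_div_iff₀ (by linarith)] at hε2
  linarith

include hε hε2 in
lemma w_bounds (P : Prop) [Decidable P] :
    ε ≤ (if P then 1 - (2 * (d : ℝ) - 1) * ε else ε) ∧
      (if P then 1 - (2 * (d : ℝ) - 1) * ε else ε) ≤ 1 := by
  have h1 := d_pos hε hε2
  have h2 := eps_lt hε hε2
  have h3 : ε * 1 ≤ ε * d := mul_le_mul_of_nonneg_left h1 hε.le
  split_ifs
  · constructor <;> nlinarith
  · constructor <;> nlinarith

include hε hε2 in
lemma pn_nonneg (ω : Env d) (n : ℕ) (x : Fin d → ℤ) : 0 ≤ pn ε ω n x := by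
  induction n generalizing x with
  | zero =>
    simp only [pn]
    split_ifs <;> norm_num
  | succ n ih =>
    rw [pn_succ]
    apply Finset.sum_nonneg
    intro a _
    exact mul_nonneg (ih _) (hε.le.trans (w_bounds hε hε2 _).1)

include hε hε2 in
lemma pn_le (ω : Env d) (n : ℕ) (x : Fin d → ℤ) :
    pn ε ω n x ≤ (Fintype.card (Arrow d) : ℝ) ^ n := by
  induction n generalizing x with
  | zero =>
    simp only [pn, pow_zero]
    split_ifs <;> norm_num
  | succ n ih =>
    rw [pn_succ]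
    calc ∑ a : Arrow d, pn ε ω n (x + vec a) *
          (if ω (x + vec a) = a then 1 - (2 * (d : ℝ) - 1) * ε else ε)
        ≤ ∑ _a : Arrow d, (Fintype.card (Arrow d) : ℝ) ^ n := by
          apply Finset.sum_le_sum
          intro a _
          calc _ ≤ (Fintype.card (Arrow d) : ℝ) ^ n * 1 :=
                mul_le_mul (ih _) (w_bounds hε hε2 _).2 (hε.le.trans (w_bounds hε hε2 _).1)
                  (by positivity)
            _ = _ := mul_one _
      _ = (Fintype.card (Arrow d) : ℝ) ^ (n + 1) := by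
          rw [Finset.sum_const, Finset.card_univ, nsmul_eq_mul, pow_succ, mul_comm]

lemma pn_meas (n : ℕ) (x : Fin d → ℤ) : Measurable fun ω : Env d => pn ε ω n x := by
  induction n generalizing x with
  | zero => exact measurable_const
  | succ n ih =>
    simp_rw [pn_succ]
    apply Finset.measurable_sum
    intro a _
    apply (ih _).mul
    have h1 : Measurable fun b : Arrow d =>
        (if b = a then 1 - (2 * (d : ℝ) - 1) * ε else ε) := Measurable.of_discrete
    exact h1.comp (measurable_pi_apply _)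

include hε hε2 in
lemma pn_low (ω : Env d) (k : ℕ) : ε ^ (2 * k) ≤ pn ε ω (2 * k) 0 ∧
    ∀ a : Arrow d, ε ^ (2 * k + 1) ≤ pn ε ω (2 * k + 1) (vec a) := by
  have hstep : ∀ (n : ℕ) (x : Fin d → ℤ) (b : Arrow d), ε ^ n ≤ pn ε ω n (x + vec b) →
      ε ^ (n + 1) ≤ pn ε ω (n + 1) x := by
    intro n x b h
    rw [pn_succ, pow_succ]
    calc ε ^ n * ε ≤ pn ε ω n (x + vec b) *
          (if ω (x + vec b) = b then 1 - (2 * (d : ℝ) - 1) * ε else ε) :=
          mul_le_mul h (w_bounds hε hε2 _).1 hε.le (pn_nonneg hε hε2 _ _ _)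
      _ ≤ _ := Finset.single_le_sum (f := fun a : Arrow d => pn ε ω n (x + vec a) *
          (if ω (x + vec a) = a then 1 - (2 * (d : ℝ) - 1) * ε else ε))
          (fun a _ => mul_nonneg (pn_nonneg hε hε2 _ _ _)
            (hε.le.trans (w_bounds hε hε2 _).1)) (Finset.mem_univ b)
  have hodd : ∀ k, ε ^ (2 * k) ≤ pn ε ω (2 * k) 0 →
      ∀ a : Arrow d, ε ^ (2 * k + 1) ≤ pn ε ω (2 * k + 1) (vec a) := by
    intro k hk a
    obtain ⟨b, hb, _⟩ := exists_neg a
    apply hstep _ _ b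
    rw [hb]; exact hk
  have heven : ∀ k, ε ^ (2 * k) ≤ pn ε ω (2 * k) 0 := by
    intro k
    induction k with
    | zero => simp [pn]
    | succ k ih =>
      have hd : d ≠ 0 := by
        have := d_pos hε hε2
        rintro rfl
        norm_num at this
      have a : Arrow d := (⟨0, Nat.pos_of_ne_zero hd⟩, true)
      have h := hodd k ih a
      rw [show 2 * (k + 1) = 2 * k + 1 + 1 by ring]
      apply hstep _ _ a
      rwa [zero_add]
  exact ⟨heven k, hodd k (heven k)⟩

section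
variable [NeZero d]

instance : IsProbabilityMeasure (envLaw d) := by
  unfold envLaw; infer_instance

include hε hε2 in
lemma pn_int (n : ℕ) (x : Fin d → ℤ) : Integrable (fun ω => pn ε ω n x) (envLaw d) := by
  refine Integrable.of_bound (pn_meas n x).aestronglyMeasurable
    ((Fintype.card (Arrow d) : ℝ) ^ n) (Eventually.of_forall fun ω => ?_)
  rw [Real.norm_of_nonneg (pn_nonneg hε hε2 _ _ _)]
  exact pn_le hε hε2 _ _ _

include hε hε2 in
lemma m1_low (n : ℕ) (x : Fin d → ℤ) (h : ∀ ω, ε ^ n ≤ pn ε ω n x) : 0 < m1 d ε n x := by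
  have h1 : ε ^ n ≤ m1 d ε n x := by
    have h2 : ∫ _ω, ε ^ n ∂(envLaw d) ≤ ∫ ω, pn ε ω n x ∂(envLaw d) :=
      integral_mono (integrable_const _) (pn_int hε hε2 n x) h
    simpa [m1] using h2
  exact lt_of_lt_of_le (by positivity) h1

lemma cyl_pos (S : Arrow d → Set (Arrow d)) (hS : ∀ a, (S a).Nonempty) :
    0 < envLaw d {ω | ∀ a, ω (vec a) ∈ S a} := by
  classical
  let t : (Fin d → ℤ) → Set (Arrow d) := fun x => {b | ∀ a, vec a = x → b ∈ S a}
  have h : {ω : Env d | ∀ a, ω (vec a) ∈ S a}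
      = Set.pi (↑(Finset.univ.image (vec : Arrow d → Fin d → ℤ))) t := by
    ext ω
    simp only [Set.mem_ofPred_eq, Set.mem_pi, Finset.coe_image, Finset.coe_univ, Set.image_univ,
      Set.mem_range, forall_exists_index, forall_apply_eq_imp_iff, t]
    constructor
    · intro h a a' haa
      have := vec_inj haa
      subst this
      exact h a'
    · intro h a
      exact h a a rfl
  rw [h, envLaw, Measure.infinitePi_pi _ (fun _ _ => MeasurableSet.of_discrete)]
  rw [pos_iff_ne_zero, Finset.prod_ne_zero_iff]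
  intro x hx
  obtain ⟨a, _, rfl⟩ := Finset.mem_image.1 hx
  obtain ⟨b, hb⟩ := hS a
  have hbt : b ∈ t (vec a) := by
    intro a' haa
    rw [vec_inj haa]
    exact hb
  rw [Ne, PMF.toMeasure_apply_eq_zero_iff _ MeasurableSet.of_discrete, Set.disjoint_left]
  intro hcon
  exact hcon (by simp) hbt

include hε hε2 in
theorem not_localRatio : ¬ LocalRatio d ε := by
  intro hL
  set Q : ℝ := 1 - (2 * (d : ℝ) - 1) * ε with hQ
  have hd1 := d_pos hε hε2
  have hlt := eps_lt hε hε2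
  have hεQ : ε < Q := by rw [hQ]; linarith
  have hQ1 : Q ≤ 1 := by rw [hQ]; nlinarith
  set δ : ℝ := (Q - ε) / 8 with hδ
  have hδ0 : 0 < δ := by rw [hδ]; linarith
  have hδ1 : δ ≤ 1 / 8 := by rw [hδ]; linarith
  have hT := hL 1 one_pos δ hδ0
  set s : ℕ → ENNReal := fun n : ℕ => ⨆ x ∈ {x : Fin d → ℤ | √(∑ i, (x i : ℝ) ^ 2) ≤
      1 * √(n : ℝ) ∧ 0 < m1 d ε n x}, envLaw d {ω | δ < |pn ε ω n x / m1 d ε n x - 1|} with hs
  have hT2 : Tendsto (fun n => (Fintype.card (Arrow d) : ENNReal) * s n + s (n + 1)) atTop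
      (𝓝 0) := by
    have h1 : Tendsto (fun n => (Fintype.card (Arrow d) : ENNReal) * s n) atTop (𝓝 0) := by
      have := ENNReal.Tendsto.const_mul (a := (Fintype.card (Arrow d) : ENNReal)) hT
        (Or.inr (ENNReal.natCast_ne_top _))
      simpa using this
    have h2 : Tendsto (fun n => s (n + 1)) atTop (𝓝 0) := (tendsto_add_atTop_iff_nat 1).2 hT
    simpa using h1.add h2
  have hA1 := cyl_pos (d := d) (fun a => {a}) (fun a => ⟨a, rfl⟩)
  have hA0 := cyl_pos (d := d) (fun a => {b | b ≠ a}) (fun a => by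
    obtain ⟨b, _, hb⟩ := exists_neg a
    exact ⟨b, hb⟩)
  have hev := hT2.eventually (gt_mem_nhds (lt_min hA1 hA0))
  obtain ⟨N, hN⟩ := eventually_atTop.1 hev
  set n : ℕ := 2 * N + 1 with hn
  have hnN := hN n (by omega)
  rw [lt_min_iff] at hnN
  have hm1 : ∀ a : Arrow d, 0 < m1 d ε n (vec a) := fun a =>
    m1_low hε hε2 _ _ fun ω => (pn_low hε hε2 ω N).2 a
  have hm0 : 0 < m1 d ε (n + 1) 0 :=
    m1_low hε hε2 _ _ fun ω => (pn_low hε hε2 ω (N + 1)).1
  have hba : ∀ a : Arrow d,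
      envLaw d {ω | δ < |pn ε ω n (vec a) / m1 d ε n (vec a) - 1|} ≤ s n := by
    intro a
    refine le_iSup₂_of_le (vec a) ⟨?_, hm1 a⟩ le_rfl
    have h1 : (∑ i, ((vec a i : ℤ) : ℝ) ^ 2) = 1 := by
      rw [Finset.sum_eq_single a.1]
      · simp only [vec, if_true]
        split_ifs <;> norm_num
      · intro b _ hb
        simp [vec, hb]
      · simp
    rw [h1, Real.sqrt_one, one_mul, Real.one_le_sqrt]
    rw [hn]; push_cast
    have : (0 : ℝ) ≤ N := Nat.cast_nonneg N
    linarith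
  have hb0 : envLaw d {ω | δ < |pn ε ω (n + 1) 0 / m1 d ε (n + 1) 0 - 1|} ≤ s (n + 1) := by
    refine le_iSup₂_of_le 0 ⟨?_, hm0⟩ le_rfl
    simp
  have hgood : ∀ A : Set (Env d), (Fintype.card (Arrow d) : ENNReal) * s n + s (n + 1)
      < envLaw d A → ∃ ω ∈ A, (∀ a : Arrow d, |pn ε ω n (vec a) / m1 d ε n (vec a) - 1| ≤ δ) ∧
        |pn ε ω (n + 1) 0 / m1 d ε (n + 1) 0 - 1| ≤ δ := by
    intro A hA
    by_contra hcon
    push Not at hcon
    have hsub : A ⊆ (⋃ a ∈ (Finset.univ : Finset (Arrow d)),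
        {ω | δ < |pn ε ω n (vec a) / m1 d ε n (vec a) - 1|}) ∪
        {ω | δ < |pn ε ω (n + 1) 0 / m1 d ε (n + 1) 0 - 1|} := by
      intro ω hω
      by_cases h : ∀ a : Arrow d, |pn ε ω n (vec a) / m1 d ε n (vec a) - 1| ≤ δ
      · exact Or.inr (hcon ω hω h)
      · push Not at h
        obtain ⟨a, ha⟩ := h
        left
        simp only [Set.mem_iUnion]
        exact ⟨a, Finset.mem_univ a, ha⟩
    have : envLaw d A ≤ (Fintype.card (Arrow d) : ENNReal) * s n + s (n + 1) := by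
      refine (measure_mono hsub).trans ((measure_union_le _ _).trans (add_le_add ?_ hb0))
      refine (measure_biUnion_finset_le _ _).trans ?_
      refine (Finset.sum_le_sum fun a _ => hba a).trans ?_
      rw [Finset.sum_const, Finset.card_univ, nsmul_eq_mul]
    exact absurd hA (not_lt.2 this)
  set M : ℝ := ∑ a : Arrow d, m1 d ε n (vec a) with hM
  have hMpos : 0 < M := by
    apply Finset.sum_pos (fun a _ => hm1 a)
    exact ⟨((0 : Fin d), true), Finset.mem_univ _⟩
  obtain ⟨ω, hω, hω1, hω2⟩ := hgood _ hnN.1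
  obtain ⟨ω', hω', hω'1, hω'2⟩ := hgood _ hnN.2
  have hkey1 : Q * ((1 - δ) * M) ≤ (1 + δ) * m1 d ε (n + 1) 0 := by
    have h1 : pn ε ω (n + 1) 0 = Q * ∑ a : Arrow d, pn ε ω n (vec a) := by
      rw [pn_succ, Finset.mul_sum]
      apply Finset.sum_congr rfl
      intro a _
      have : ω (0 + vec a) = a := by rw [zero_add]; exact hω a
      rw [if_pos this, zero_add, mul_comm]
    have h2 : (1 - δ) * M ≤ ∑ a : Arrow d, pn ε ω n (vec a) := by
      rw [hM, Finset.mul_sum]
      apply Finset.sum_le_sum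
      intro a _
      have h3 := (abs_le.1 (hω1 a)).1
      have h4 : 1 - δ ≤ pn ε ω n (vec a) / m1 d ε n (vec a) := by linarith
      rwa [le_div_iff₀ (hm1 a)] at h4
    have h5 : pn ε ω (n + 1) 0 ≤ (1 + δ) * m1 d ε (n + 1) 0 := by
      have h3 := (abs_le.1 hω2).2
      have h4 : pn ε ω (n + 1) 0 / m1 d ε (n + 1) 0 ≤ 1 + δ := by linarith
      rwa [div_le_iff₀ hm0] at h4
    calc Q * ((1 - δ) * M) ≤ Q * ∑ a : Arrow d, pn ε ω n (vec a) :=
          mul_le_mul_of_nonneg_left h2 (hε.trans hεQ).le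
      _ ≤ _ := by rw [← h1]; exact h5
  have hkey2 : (1 - δ) * m1 d ε (n + 1) 0 ≤ ε * ((1 + δ) * M) := by
    have h1 : pn ε ω' (n + 1) 0 = ε * ∑ a : Arrow d, pn ε ω' n (vec a) := by
      rw [pn_succ, Finset.mul_sum]
      apply Finset.sum_congr rfl
      intro a _
      have : ¬ ω' (0 + vec a) = a := by rw [zero_add]; exact hω' a
      rw [if_neg this, zero_add, mul_comm]
    have h2 : ∑ a : Arrow d, pn ε ω' n (vec a) ≤ (1 + δ) * M := by
      rw [hM, Finset.mul_sum]
      apply Finset.sum_le_sum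
      intro a _
      have h3 := (abs_le.1 (hω'1 a)).2
      have h4 : pn ε ω' n (vec a) / m1 d ε n (vec a) ≤ 1 + δ := by linarith
      rwa [div_le_iff₀ (hm1 a)] at h4
    have h5 : (1 - δ) * m1 d ε (n + 1) 0 ≤ pn ε ω' (n + 1) 0 := by
      have h3 := (abs_le.1 hω'2).1
      have h4 : 1 - δ ≤ pn ε ω' (n + 1) 0 / m1 d ε (n + 1) 0 := by linarith
      rwa [le_div_iff₀ hm0] at h4
    calc (1 - δ) * m1 d ε (n + 1) 0 ≤ pn ε ω' (n + 1) 0 := h5
      _ ≤ _ := by rw [h1]; exact mul_le_mul_of_nonneg_left h2 hε.le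
  have hfin : (Q * (1 - δ) ^ 2) * M ≤ (ε * (1 + δ) ^ 2) * M := by
    calc (Q * (1 - δ) ^ 2) * M = (1 - δ) * (Q * ((1 - δ) * M)) := by ring
      _ ≤ (1 - δ) * ((1 + δ) * m1 d ε (n + 1) 0) :=
          mul_le_mul_of_nonneg_left hkey1 (by linarith)
      _ = (1 + δ) * ((1 - δ) * m1 d ε (n + 1) 0) := by ring
      _ ≤ (1 + δ) * (ε * ((1 + δ) * M)) := mul_le_mul_of_nonneg_left hkey2 (by linarith)
      _ = (ε * (1 + δ) ^ 2) * M := by ring
  have hfin2 := le_of_mul_le_mul_right hfin hMpos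
  have h8 : Q = ε + 8 * δ := by rw [hδ]; ring
  rw [h8] at hfin2 hQ1
  nlinarith [mul_pos hδ0 hδ0, mul_pos hε hδ0]

end
end Proof

/-- For every dimension `d ≥ 1` and every `ε ∈ (0, 1/(2d))` the model does not homogenize. -/
theorem result (d : ℕ) [NeZero d] (ε : ℝ) (h0 : 0 < ε) (h1 : ε < 1 / (2 * (d : ℝ))) :
    ¬ Homogenizes d ε :=
  fun h => not_localRatio h0 h1 h.2

end Pool.Agent.Results.MP_31ab2b_pr.NeverHomogenizes
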